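import Pool.Agent.Lib.MP_aa7e4d_lc.Interfaces

/-!
# STEP: the back and forth step
-/

namespace Pool.Agent.SFC.H47

open Pool.Agent.SFC

/-- an increasing sequence of finite sets of bounded cardinality stabilizes for one step -/
theorem stab {β : Type} (m d : ℕ) (T : ℕ → Finset β) (hmono : ∀ j, T j ⊆ T (j + 1))
    (hcard : ∀ j, (T j).card ≤ m) : ∃ j, d ≤ j ∧ j ≤ d + m ∧ T (j + 1) ⊆ T j := by
  by_contra hcon
  push Not at hcon
  have key : ∀ i, i ≤ m + 1 → i ≤ (T (d + i)).card := by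
    intro i
    induction i with
    | zero => intro _; exact Nat.zero_le _
    | succ i ih =>
      intro hi
      have h1 : i ≤ (T (d + i)).card := ih (by omega)
      have h2 : ¬ T (d + i + 1) ⊆ T (d + i) := hcon (d + i) (by omega) (by omega)
      have h3 : T (d + i) ⊂ T (d + i + 1) := ⟨hmono _, h2⟩
      have h4 : (T (d + i)).card < (T (d + i + 1)).card := Finset.card_lt_card h3
      have h5 : d + (i + 1) = d + i + 1 := by omega
      rw [h5]
      omega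
  have h1 := key (m + 1) le_rfl
  have h2 := hcard (d + (m + 1))
  omega

/-- The set of iterated parents of depth at most `j` of a tuple. -/
def Ancs {N α : Type} (F : Frame N) (u : α → N) (j : ℕ) : Set N :=
  {z | ∃ (a : α) (w : List Fn), w.length ≤ j ∧ F.ev w (u a) = z}

theorem ancs_mono {N α : Type} (F : Frame N) (u : α → N) {i j : ℕ} (h : i ≤ j) :
    Ancs F u i ⊆ Ancs F u j := by
  rintro z ⟨a, w, hw, rfl⟩
  exact ⟨a, w, hw.trans h, rfl⟩

theorem ancs_finite {N α : Type} [Finite α] (F : Frame N) (u : α → N) (j : ℕ) :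
    (Ancs F u j).Finite := by
  have h1 : {w : List Fn | w.length ≤ j}.Finite := List.finite_length_le Fn j
  have h2 : ((Set.univ : Set α) ×ˢ {w : List Fn | w.length ≤ j}).Finite :=
    Set.finite_univ.prod h1
  refine (h2.image (fun p : α × List Fn => F.ev p.2 (u p.1))).subset ?_
  rintro z ⟨a, w, hw, rfl⟩
  exact ⟨(a, w), ⟨Set.mem_univ _, hw⟩, rfl⟩

theorem step (hExt : ExtStatement) : StepStatement := by
  classical
  intro d
  have hWfin : {w : List Fn | w.length ≤ d}.Finite := List.finite_length_le Fn d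
  set W : Finset (List Fn) := hWfin.toFinset with hW
  have hWmem : ∀ w, w ∈ W ↔ w.length ≤ d := by
    intro w; rw [hW, Set.Finite.mem_toFinset]; rfl
  set m := W.card with hm
  refine ⟨d + m + 2, by omega, ?_⟩
  intro N₁ N₂ F₁ F₂ hG α _ u u' hA v
  set D := d + m + 2 with hD
  obtain ⟨hA1, hA2, hA3⟩ := hA
  -- nonemptiness
  obtain ⟨n0, -⟩ := hG ∅ .L (fun _ => none) ∅ (by intro i y h; cases h)
  -- stabilization
  obtain ⟨j, hdj, hjm, hstab⟩ : ∃ j, d ≤ j ∧ j ≤ d + m ∧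
      W.filter (fun w => F₁.ev w v ∈ Ancs F₁ u (j + 1)) ⊆
        W.filter (fun w => F₁.ev w v ∈ Ancs F₁ u j) := by
    refine stab m d (fun j => W.filter (fun w => F₁.ev w v ∈ Ancs F₁ u j)) ?_ ?_
    · intro j w hw
      rw [Finset.mem_filter] at hw ⊢
      exact ⟨hw.1, ancs_mono F₁ u (Nat.le_succ j) hw.2⟩
    · intro j
      exact Finset.card_filter_le _ _
  have hst : ∀ w : List Fn, w.length ≤ d → F₁.ev w v ∈ Ancs F₁ u (j + 1) →
      F₁.ev w v ∈ Ancs F₁ u j := by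
    intro w hw hw'
    exact (Finset.mem_filter.1 (hstab (Finset.mem_filter.2 ⟨(hWmem w).2 hw, hw'⟩))).2
  have hjD : j + 1 ≤ D := by omega
  -- the map h
  obtain ⟨h, hh⟩ : ∃ h : N₁ → N₂, ∀ (a : α) (w : List Fn), w.length ≤ D →
      h (F₁.ev w (u a)) = F₂.ev w (u' a) := by
    refine ⟨fun z => if H : ∃ p : α × List Fn, p.2.length ≤ D ∧ F₁.ev p.2 (u p.1) = z then
      F₂.ev H.choose.2 (u' H.choose.1) else n0, ?_⟩
    intro a w hw
    have H : ∃ p : α × List Fn, p.2.length ≤ D ∧ F₁.ev p.2 (u p.1) = F₁.ev w (u a) :=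
      ⟨(a, w), hw, rfl⟩
    have h1 := H.choose_spec
    show (if H : ∃ p : α × List Fn, p.2.length ≤ D ∧ F₁.ev p.2 (u p.1) = F₁.ev w (u a) then
      F₂.ev H.choose.2 (u' H.choose.1) else n0) = _
    rw [dif_pos H]
    exact (hA1 _ _ _ _ h1.1 hw).1 h1.2
  have hhinj : ∀ z ∈ Ancs F₁ u D, ∀ z' ∈ Ancs F₁ u D, h z = h z' → z = z' := by
    rintro z ⟨a, w, hw, rfl⟩ z' ⟨b, w', hw', rfl⟩ he
    rw [hh a w hw, hh b w' hw'] at he
    exact (hA1 _ _ _ _ hw hw').2 he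
  have hhkind : ∀ z ∈ Ancs F₁ u D, F₂.kind (h z) = F₁.kind z := by
    rintro z ⟨a, w, hw, rfl⟩
    rw [hh a w hw]
    exact (hA2 a w hw).symm
  have hhR : ∀ z ∈ Ancs F₁ u D, ∀ z' ∈ Ancs F₁ u D, (F₂.R (h z) (h z') ↔ F₁.R z z') := by
    rintro z ⟨a, w, hw, rfl⟩ z' ⟨b, w', hw', rfl⟩
    rw [hh a w hw, hh b w' hw']
    exact (hA3 _ _ _ _ hw hw').symm
  have hhS : ∀ z ∈ Ancs F₁ u D, h z ∈ Ancs F₂ u' D := by
    rintro z ⟨a, w, hw, rfl⟩
    exact ⟨a, w, hw, (hh a w hw).symm⟩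
  -- the new elements
  let V : Set N₁ := {z | ∃ w : List Fn, w.length ≤ d ∧ F₁.ev w v = z}
  have hVfin : V.Finite := by
    refine (hWfin.image (fun w => F₁.ev w v)).subset ?_
    rintro z ⟨w, hw, rfl⟩
    exact ⟨w, hw, rfl⟩
  let Xs : Set N₁ := {z | z ∈ V ∧ z ∉ Ancs F₁ u j}
  have hXfin : Xs.Finite := hVfin.subset (fun z hz => hz.1)
  have : Finite Xs := hXfin
  have : Fintype Xs := Fintype.ofFinite Xs
  let ρ : Xs → ℕ := fun x => (Finset.univ.filter (fun y : Xs => F₁.lt y.1 x.1)).card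
  have hρ : ∀ x y : Xs, F₁.lt y.1 x.1 → ρ y < ρ x := by
    intro x y hyx
    refine Finset.card_lt_card ⟨?_, ?_⟩
    · intro z hz
      rw [Finset.mem_filter] at hz ⊢
      exact ⟨Finset.mem_univ _, F₁.lt_trans _ _ _ hz.2 hyx⟩
    · intro hsub
      have h1 : y ∈ Finset.univ.filter (fun z : Xs => F₁.lt z.1 x.1) :=
        Finset.mem_filter.2 ⟨Finset.mem_univ _, hyx⟩
      have h2 := hsub h1
      rw [Finset.mem_filter] at h2
      exact F₁.lt_irrefl _ h2.2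
  let τ : Xs → Fn → Option (Xs ⊕ N₂) := fun x i =>
    if F₁.f i x.1 = x.1 then none
    else if H : F₁.f i x.1 ∈ Xs then some (Sum.inl ⟨F₁.f i x.1, H⟩)
    else if F₁.f i x.1 ∈ Ancs F₁ u j then some (Sum.inr (h (F₁.f i x.1)))
    else none
  have hτ0 : ∀ (x : Xs) (i : Fn), F₁.f i x.1 = x.1 → τ x i = none := by
    intro x i hx
    dsimp only [τ]
    rw [if_pos hx]
  have hτ1 : ∀ (x : Xs) (i : Fn) (H : F₁.f i x.1 ∈ Xs), F₁.f i x.1 ≠ x.1 →
      τ x i = some (Sum.inl ⟨F₁.f i x.1, H⟩) := by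
    intro x i H hx
    dsimp only [τ]
    rw [if_neg hx, dif_pos H]
  have hτ2 : ∀ (x : Xs) (i : Fn), F₁.f i x.1 ∉ Xs → F₁.f i x.1 ≠ x.1 →
      F₁.f i x.1 ∈ Ancs F₁ u j → τ x i = some (Sum.inr (h (F₁.f i x.1))) := by
    intro x i H hx hx'
    dsimp only [τ]
    rw [if_neg hx, dif_neg H, if_pos hx']
  have hτ3 : ∀ (x : Xs) (i : Fn), F₁.f i x.1 ∉ Xs → F₁.f i x.1 ≠ x.1 →
      F₁.f i x.1 ∉ Ancs F₁ u j → τ x i = none := by
    intro x i H hx hx'
    dsimp only [τ]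
    rw [if_neg hx, dif_neg H, if_neg hx']
  have hSfin : (Ancs F₂ u' D).Finite := ancs_finite F₂ u' D
  obtain ⟨e, einj, eS, ekind, e0, e1, e2, eR, eU⟩ := hExt N₂ F₂ hG Xs ρ
    (fun x => F₁.kind x.1) τ hSfin.toFinset (fun x y => F₁.R x.1 y.1)
    (fun x s => ∃ z ∈ Ancs F₁ u D, h z = s ∧ F₁.R x.1 z)
    (by
      intro x i y hxy
      by_cases hx : F₁.f i x.1 = x.1
      · rw [hτ0 x i hx] at hxy
        cases hxy
      · by_cases H : F₁.f i x.1 ∈ Xs
        · rw [hτ1 x i H hx] at hxy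
          have h1 : (⟨F₁.f i x.1, H⟩ : Xs) = y := Sum.inl.inj (Option.some.inj hxy)
          subst h1
          exact ⟨hρ _ _ (F₁.f_lt i x.1 hx), F₁.f_ok i x.1 hx⟩
        · by_cases H' : F₁.f i x.1 ∈ Ancs F₁ u j
          · rw [hτ2 x i H hx H'] at hxy
            cases hxy
          · rw [hτ3 x i H hx H'] at hxy
            cases hxy)
    (by
      intro x i s hxs
      by_cases hx : F₁.f i x.1 = x.1
      · rw [hτ0 x i hx] at hxs
        cases hxs
      · by_cases H : F₁.f i x.1 ∈ Xs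
        · rw [hτ1 x i H hx] at hxs
          cases hxs
        · by_cases H' : F₁.f i x.1 ∈ Ancs F₁ u j
          · rw [hτ2 x i H hx H'] at hxs
            have h1 : h (F₁.f i x.1) = s := Sum.inr.inj (Option.some.inj hxs)
            subst h1
            have h2 : F₁.f i x.1 ∈ Ancs F₁ u D := ancs_mono F₁ u (by omega) H'
            refine ⟨hSfin.mem_toFinset.2 (hhS _ h2), ?_⟩
            rw [hhkind _ h2]
            exact F₁.f_ok i x.1 hx
          · rw [hτ3 x i H hx H'] at hxs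
            cases hxs)
    (fun x y hxy => F₁.R_symm _ _ hxy) (fun x hx => F₁.R_irrefl _ hx)
  -- the map g
  let g : N₁ → N₂ := fun z => if H : z ∈ Xs then e ⟨z, H⟩ else h z
  have hg1 : ∀ (z : N₁) (H : z ∈ Xs), g z = e ⟨z, H⟩ := by
    intro z H
    show (if H : z ∈ Xs then e ⟨z, H⟩ else h z) = _
    rw [dif_pos H]
  have hg2 : ∀ z ∈ Ancs F₁ u j, g z = h z := by
    intro z hz
    have H : z ∉ Xs := fun H => H.2 hz
    show (if H : z ∈ Xs then e ⟨z, H⟩ else h z) = _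
    rw [dif_neg H]
  have hev : ∀ w : List Fn, w.length ≤ d → F₂.ev w (g v) = g (F₁.ev w v) := by
    intro w
    induction w with
    | nil => intro _; rfl
    | cons i w ih =>
      intro hw
      have hw1 : w.length + 1 ≤ d := hw
      have hw2 : w.length ≤ d := by omega
      rw [Frame.ev_cons, ih hw2, Frame.ev_cons]
      have hV : F₁.f i (F₁.ev w v) ∈ V := ⟨i :: w, hw, rfl⟩
      by_cases hX : F₁.ev w v ∈ Xs
      · rw [hg1 _ hX]
        by_cases hfx : F₁.f i (F₁.ev w v) = F₁.ev w v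
        · rw [e0 ⟨F₁.ev w v, hX⟩ i (hτ0 ⟨F₁.ev w v, hX⟩ i hfx), hfx, hg1 _ hX]
        · by_cases hA : F₁.f i (F₁.ev w v) ∈ Ancs F₁ u j
          · have hn : F₁.f i (F₁.ev w v) ∉ Xs := fun H => H.2 hA
            rw [e2 ⟨F₁.ev w v, hX⟩ i _ (hτ2 ⟨F₁.ev w v, hX⟩ i hn hfx hA), hg2 _ hA]
          · have hn : F₁.f i (F₁.ev w v) ∈ Xs := ⟨hV, hA⟩
            rw [e1 ⟨F₁.ev w v, hX⟩ i _ (hτ1 ⟨F₁.ev w v, hX⟩ i hn hfx), hg1 _ hn]
      · have hA : F₁.ev w v ∈ Ancs F₁ u j := by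
          by_contra hA
          exact hX ⟨⟨w, hw2, rfl⟩, hA⟩
        rw [hg2 _ hA]
        obtain ⟨a, w0, hw0, hw0'⟩ := hA
        have hf1 : F₁.f i (F₁.ev w v) = F₁.ev (i :: w0) (u a) := by
          rw [Frame.ev_cons, hw0']
        have hf2 : F₁.f i (F₁.ev w v) ∈ Ancs F₁ u (j + 1) :=
          ⟨a, i :: w0, by simpa using hw0, hf1.symm⟩
        have hf3 : F₁.f i (F₁.ev w v) ∈ Ancs F₁ u j := hst (i :: w) hw hf2
        rw [hg2 _ hf3, hf1, hh a (i :: w0) (by simp only [List.length_cons]; omega),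
          Frame.ev_cons, ← hw0', hh a w0 (by omega)]
  -- properties of g
  have hXA : ∀ z : N₁, z ∈ V ∪ Ancs F₁ u j → z ∈ Xs ∨ z ∈ Ancs F₁ u j := by
    intro z hz
    by_cases hA : z ∈ Ancs F₁ u j
    · exact Or.inr hA
    · rcases hz with hz | hz
      · exact Or.inl ⟨hz, hA⟩
      · exact Or.inr hz
  have hjD' : ∀ z ∈ Ancs F₁ u j, z ∈ Ancs F₁ u D := fun z hz => ancs_mono F₁ u (by omega) hz
  have gkind : ∀ z ∈ V ∪ Ancs F₁ u j, F₁.kind z = F₂.kind (g z) := by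
    intro z hz
    rcases hXA z hz with hX | hA
    · rw [hg1 z hX, ekind]
    · rw [hg2 z hA, hhkind z (hjD' z hA)]
  have hmix : ∀ (z : N₁) (H : z ∈ Xs), ∀ z' ∈ Ancs F₁ u j, e ⟨z, H⟩ ≠ h z' := by
    intro z H z' hz' he
    refine eS ⟨z, H⟩ ?_
    rw [he]
    exact hSfin.mem_toFinset.2 (hhS _ (hjD' z' hz'))
  have ginj : ∀ z ∈ V ∪ Ancs F₁ u j, ∀ z' ∈ V ∪ Ancs F₁ u j, (z = z' ↔ g z = g z') := by
    intro z hz z' hz'
    refine ⟨fun h => by rw [h], fun he => ?_⟩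
    rcases hXA z hz with hX | hA
    · rcases hXA z' hz' with hX' | hA'
      · rw [hg1 z hX, hg1 z' hX'] at he
        exact congrArg Subtype.val (einj he)
      · rw [hg1 z hX, hg2 z' hA'] at he
        exact absurd he (hmix z hX z' hA')
    · rcases hXA z' hz' with hX' | hA'
      · rw [hg2 z hA, hg1 z' hX'] at he
        exact absurd he.symm (hmix z' hX' z hA)
      · rw [hg2 z hA, hg2 z' hA'] at he
        exact hhinj z (hjD' z hA) z' (hjD' z' hA') he
  have hmixR : ∀ (z : N₁) (H : z ∈ Xs), ∀ z' ∈ Ancs F₁ u j,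
      (F₂.R (e ⟨z, H⟩) (h z') ↔ F₁.R z z') := by
    intro z H z' hz'
    rw [eU ⟨z, H⟩ (h z') (hSfin.mem_toFinset.2 (hhS _ (hjD' z' hz')))]
    constructor
    · rintro ⟨z'', hz'', he, hR⟩
      have := hhinj z'' hz'' z' (hjD' z' hz') he
      rw [← this]
      exact hR
    · intro hR
      exact ⟨z', hjD' z' hz', rfl, hR⟩
  have gR : ∀ z ∈ V ∪ Ancs F₁ u j, ∀ z' ∈ V ∪ Ancs F₁ u j,
      (F₁.R z z' ↔ F₂.R (g z) (g z')) := by
    intro z hz z' hz'
    rcases hXA z hz with hX | hA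
    · rcases hXA z' hz' with hX' | hA'
      · rw [hg1 z hX, hg1 z' hX', eR]
      · rw [hg1 z hX, hg2 z' hA', hmixR z hX z' hA']
    · rcases hXA z' hz' with hX' | hA'
      · rw [hg2 z hA, hg1 z' hX']
        constructor
        · intro hR
          exact F₂.R_symm _ _ ((hmixR z' hX' z hA).2 (F₁.R_symm _ _ hR))
        · intro hR
          exact F₁.R_symm _ _ ((hmixR z' hX' z hA).1 (F₂.R_symm _ _ hR))
      · rw [hg2 z hA, hg2 z' hA', hhR z (hjD' z hA) z' (hjD' z' hA')]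
  -- conclusion
  refine ⟨g v, ?_⟩
  have hmem : ∀ (o : Option α) (w : List Fn), w.length ≤ d →
      F₁.ev w (o.elim v u) ∈ V ∪ Ancs F₁ u j := by
    intro o w hw
    cases o with
    | none => exact Or.inl ⟨w, hw, rfl⟩
    | some a => exact Or.inr ⟨a, w, hw.trans hdj, rfl⟩
  have hval : ∀ (o : Option α) (w : List Fn), w.length ≤ d →
      F₂.ev w (o.elim (g v) u') = g (F₁.ev w (o.elim v u)) := by
    intro o w hw
    cases o with
    | none => exact hev w hw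
    | some a =>
      have h1 : F₁.ev w (u a) ∈ Ancs F₁ u j := ⟨a, w, hw.trans hdj, rfl⟩
      show F₂.ev w (u' a) = g (F₁.ev w (u a))
      rw [hg2 _ h1, hh a w (by omega)]
  refine ⟨?_, ?_, ?_⟩
  · intro a b w w' hw hw'
    show F₁.ev w (a.elim v u) = F₁.ev w' (b.elim v u) ↔
      F₂.ev w (a.elim (g v) u') = F₂.ev w' (b.elim (g v) u')
    rw [hval a w hw, hval b w' hw']
    exact ginj _ (hmem a w hw) _ (hmem b w' hw')
  · intro a w hw
    show F₁.kind (F₁.ev w (a.elim v u)) = F₂.kind (F₂.ev w (a.elim (g v) u'))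
    rw [hval a w hw]
    exact gkind _ (hmem a w hw)
  · intro a b w w' hw hw'
    show F₁.R (F₁.ev w (a.elim v u)) (F₁.ev w' (b.elim v u)) ↔
      F₂.R (F₂.ev w (a.elim (g v) u')) (F₂.ev w' (b.elim (g v) u'))
    rw [hval a w hw, hval b w' hw']
    exact gR _ (hmem a w hw) _ (hmem b w' hw')

end Pool.Agent.SFC.H47
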